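import Mathlib

/-!
# A Leibniz algebra comes from an affine algebraic rack if and only if it is finite-dimensional
-/

set_option autoImplicit false
set_option linter.all false

namespace Pool.Agent.Results.MP_133c3f_al.AllAlgebraic

open TensorProduct

universe u v

/-- The operation on the `R`-points of `Spec A` given by `f : A → A ⊗ A`. -/
noncomputable def act {k A R : Type u} [Field k] [CommRing A] [Algebra k A] [CommRing R] [Algebra k R]
    (f : A →ₐ[k] A ⊗[k] A) (x y : A →ₐ[k] R) : A →ₐ[k] R :=
  (Algebra.TensorProduct.productMap x y).comp f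

/-- The structure of an affine algebraic rack on `Spec A`; `act op x y` is `x ▷ y` and `act inv y x` is
`y ▷⁻¹ x`. -/
structure AffineRack (k A : Type u) [Field k] [CommRing A] [Algebra k A] where
  op : A →ₐ[k] A ⊗[k] A
  inv : A →ₐ[k] A ⊗[k] A
  unit : A →ₐ[k] k
  inv_op : ∀ (R : Type u) [CommRing R] [Algebra k R] (x y : A →ₐ[k] R),
    act inv (act op x y) x = y
  op_inv : ∀ (R : Type u) [CommRing R] [Algebra k R] (x y : A →ₐ[k] R),
    act op x (act inv y x) = y
  op_op : ∀ (R : Type u) [CommRing R] [Algebra k R] (x y z : A →ₐ[k] R),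
    act op x (act op y z) = act op (act op x y) (act op x z)
  inv_inv : ∀ (R : Type u) [CommRing R] [Algebra k R] (x y z : A →ₐ[k] R),
    act inv (act inv x y) z = act inv (act inv x z) (act inv y z)
  unit_op : ∀ (R : Type u) [CommRing R] [Algebra k R] (x : A →ₐ[k] R),
    act op ((Algebra.ofId k R).comp unit) x = x
  op_unit : ∀ (R : Type u) [CommRing R] [Algebra k R] (x : A →ₐ[k] R),
    act op x ((Algebra.ofId k R).comp unit) = (Algebra.ofId k R).comp unit

/-- `D` is a derivation `A → k` at the unit. -/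
def AffineRack.IsDer {k A : Type u} [Field k] [CommRing A] [Algebra k A] (Q : AffineRack k A)
    (D : A →ₗ[k] k) : Prop :=
  ∀ f g, D (f * g) = D f * Q.unit g + Q.unit f * D g

/-- The functional `(D ⊗ E) ∘ ∇`. -/
noncomputable def AffineRack.bracket {k A : Type u} [Field k] [CommRing A] [Algebra k A]
    (Q : AffineRack k A) (D E : A →ₗ[k] k) : A →ₗ[k] k :=
  LinearMap.mul' k k ∘ₗ TensorProduct.map D E ∘ₗ Q.op.toLinearMap

/-- The algebra `(q, b)` is isomorphic to the Leibniz algebra of an affine algebraic rack: there is a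
bracket-preserving injective linear map `φ` from `q` onto the space of derivations `A → k`. -/
def IsAlgebraic {k : Type u} [Field k] {q : Type v} [AddCommGroup q] [Module k q]
    (b : q →ₗ[k] q →ₗ[k] q) : Prop :=
  ∃ (A : Type u) (_ : CommRing A) (_ : Algebra k A) (Q : AffineRack k A) (φ : q →ₗ[k] A →ₗ[k] k),
    Algebra.FiniteType k A ∧ Function.Injective φ ∧ (∀ D, Q.IsDer D ↔ ∃ X, φ X = D) ∧
    ∀ X Y, φ (b X Y) = Q.bracket (φ X) (φ Y)

/-! ### Finite-dimensionality -/

section fd

variable {k A : Type u} [Field k] [CommRing A] [Algebra k A]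

theorem der_one {Q : AffineRack k A} {D : A →ₗ[k] k} (hD : Q.IsDer D) : D 1 = 0 := by
  have := hD 1 1
  rw [mul_one, map_one Q.unit, mul_one, one_mul] at this
  exact left_eq_add.1 this

theorem fd_der (Q : AffineRack k A) [hA : Algebra.FiniteType k A] {q : Type v} [AddCommGroup q]
    [Module k q] (φ : q →ₗ[k] A →ₗ[k] k) (h0 : Function.Injective φ) (h1 : ∀ X, Q.IsDer (φ X)) :
    FiniteDimensional k q := by
  obtain ⟨s, hs⟩ := hA.out
  let r : q →ₗ[k] (s → k) :=
    { toFun := fun X x => φ X x
      map_add' := fun X Y => by funext x; simp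
      map_smul' := fun c X => by funext x; simp }
  refine FiniteDimensional.of_injective r ?_
  intro X Y hXY
  apply h0
  apply LinearMap.ext
  intro f
  have hf : f ∈ Algebra.adjoin k (s : Set A) := by rw [hs]; trivial
  induction hf using Algebra.adjoin_induction with
  | mem x hx => exact congrFun hXY ⟨x, hx⟩
  | algebraMap c =>
    rw [Algebra.algebraMap_eq_smul_one, map_smul, der_one (h1 X), map_smul, der_one (h1 Y)]
  | add x y _ _ hx hy => rw [map_add, hx, hy, map_add]
  | mul x y _ _ hx hy => rw [h1 X x y, hx, hy, h1 Y x y]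

end fd

/-! ### The rack of a Leibniz algebra -/

section construction

variable {k : Type u} [Field k] {q : Type v} [AddCommGroup q] [Module k q]
  {n : ℕ} (e : Module.Basis (Fin n) k q) (b : q →ₗ[k] q →ₗ[k] q)

/-- The coordinate ring. -/
abbrev CR (k : Type u) [Field k] (n : ℕ) : Type u := TrivSqZeroExt k (Fin n → k)

/-- The coordinate functions. -/
def xi (k : Type u) [Field k] {n : ℕ} (i : Fin n) : CR k n := TrivSqZeroExt.inr (Pi.single i 1)

/-- `f ∘ b e_i` in coordinates. -/
noncomputable def LL (i : Fin n) : (Fin n → k) →ₗ[k] (Fin n → k) where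
  toFun f j := ∑ l, f l * e.repr (b (e i) (e j)) l
  map_add' f g := by funext j; simp [add_mul, Finset.sum_add_distrib]
  map_smul' c f := by funext j; simp [mul_assoc, Finset.mul_sum]

noncomputable def opLin : (Fin n → k) →ₗ[k] CR k n ⊗[k] CR k n where
  toFun f := 1 ⊗ₜ TrivSqZeroExt.inr f + ∑ i, xi k i ⊗ₜ TrivSqZeroExt.inr (LL e b i f)
  map_add' f g := by
    simp only [map_add, TrivSqZeroExt.inr_add, tmul_add, Finset.sum_add_distrib]; abel
  map_smul' c f := by
    simp only [map_smul, TrivSqZeroExt.inr_smul, tmul_smul, RingHom.id_apply, smul_add,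
      Finset.smul_sum]

noncomputable def invLin : (Fin n → k) →ₗ[k] CR k n ⊗[k] CR k n where
  toFun f := TrivSqZeroExt.inr f ⊗ₜ 1 - ∑ i, TrivSqZeroExt.inr (LL e b i f) ⊗ₜ xi k i
  map_add' f g := by
    simp only [map_add, TrivSqZeroExt.inr_add, add_tmul, Finset.sum_add_distrib]; abel
  map_smul' c f := by
    simp only [map_smul, TrivSqZeroExt.inr_smul, ← smul_tmul', RingHom.id_apply, smul_sub,
      Finset.smul_sum]

theorem opLin_mul (f g : Fin n → k) : opLin e b f * opLin e b g = 0 := by
  simp only [opLin, LinearMap.coe_mk, AddHom.coe_mk, add_mul, mul_add, Finset.sum_mul,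
    Finset.mul_sum, Algebra.TensorProduct.tmul_mul_tmul, TrivSqZeroExt.inr_mul_inr, tmul_zero,
    Finset.sum_const_zero, add_zero]

theorem invLin_mul (f g : Fin n → k) : invLin e b f * invLin e b g = 0 := by
  simp only [invLin, LinearMap.coe_mk, AddHom.coe_mk, sub_mul, mul_sub, Finset.sum_mul,
    Finset.mul_sum, Algebra.TensorProduct.tmul_mul_tmul, TrivSqZeroExt.inr_mul_inr, zero_tmul,
    Finset.sum_const_zero, sub_zero]

noncomputable def opHom : CR k n →ₐ[k] CR k n ⊗[k] CR k n :=
  TrivSqZeroExt.liftEquivOfComm ⟨opLin e b, opLin_mul e b⟩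

noncomputable def invHom : CR k n →ₐ[k] CR k n ⊗[k] CR k n :=
  TrivSqZeroExt.liftEquivOfComm ⟨invLin e b, invLin_mul e b⟩

theorem opHom_inr (f : Fin n → k) : opHom e b (TrivSqZeroExt.inr f) =
    1 ⊗ₜ TrivSqZeroExt.inr f + ∑ i, xi k i ⊗ₜ TrivSqZeroExt.inr (LL e b i f) := by
  rw [opHom, TrivSqZeroExt.liftEquivOfComm_apply, TrivSqZeroExt.lift_apply_inr]; rfl

theorem invHom_inr (f : Fin n → k) : invHom e b (TrivSqZeroExt.inr f) =
    TrivSqZeroExt.inr f ⊗ₜ 1 - ∑ i, TrivSqZeroExt.inr (LL e b i f) ⊗ₜ xi k i := by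
  rw [invHom, TrivSqZeroExt.liftEquivOfComm_apply, TrivSqZeroExt.lift_apply_inr]; rfl

variable {R : Type u} [CommRing R] [Algebra k R]

theorem inr_eq (f : Fin n → k) : (TrivSqZeroExt.inr f : CR k n) = ∑ l, f l • xi k l := by
  have h1 : f = ∑ l, f l • (Pi.single l 1 : Fin n → k) := by
    conv_lhs => rw [← (Pi.basisFun k (Fin n)).sum_repr f]
    simp
  have h2 := congrArg (TrivSqZeroExt.inrHom k (Fin n → k)) h1
  rw [map_sum] at h2
  simp only [map_smul] at h2
  exact h2

theorem apply_inr (x : CR k n →ₐ[k] R) (f : Fin n → k) :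
    x (TrivSqZeroExt.inr f) = ∑ l, f l • x (xi k l) := by
  rw [inr_eq, map_sum]
  simp only [map_smul]

/-- The element of `R ⊗ q` of a point. -/
noncomputable def pt (x : CR k n →ₐ[k] R) : R ⊗[k] q := ∑ i, x (xi k i) ⊗ₜ e i

theorem pt_eq (x : CR k n →ₐ[k] R) :
    pt e x = ∑ i, x (xi k i) • Algebra.TensorProduct.basis R e i := by
  simp only [pt, Algebra.TensorProduct.basis_apply, smul_tmul', smul_eq_mul, mul_one]

theorem hom_ext {x y : CR k n →ₐ[k] R} (h : ∀ i, x (xi k i) = y (xi k i)) : x = y := by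
  apply TrivSqZeroExt.algHom_ext'
  · exact Subsingleton.elim _ _
  · apply LinearMap.ext
    intro f
    change x (TrivSqZeroExt.inr f) = y (TrivSqZeroExt.inr f)
    rw [apply_inr, apply_inr]
    simp only [h]

theorem pt_inj {x y : CR k n →ₐ[k] R} (h : pt e x = pt e y) : x = y := by
  rw [pt_eq, pt_eq] at h
  have h1 := congrArg (Algebra.TensorProduct.basis R e).equivFun h
  rw [Module.Basis.equivFun_apply, Module.Basis.equivFun_apply, Module.Basis.repr_sum_self,
    Module.Basis.repr_sum_self] at h1
  exact hom_ext fun i => congrFun h1 i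

theorem LL_single (i l j : Fin n) :
    LL e b i (Pi.single l 1) j = e.repr (b (e i) (e j)) l := by
  change ∑ l', (Pi.single l 1 : Fin n → k) l' * e.repr (b (e i) (e j)) l' = _
  simp [Pi.single_apply]

theorem act_op (x y : CR k n →ₐ[k] R) (l : Fin n) : act (opHom e b) x y (xi k l) =
    y (xi k l) + ∑ i, ∑ j, e.repr (b (e i) (e j)) l • (x (xi k i) * y (xi k j)) := by
  change Algebra.TensorProduct.productMap x y (opHom e b (TrivSqZeroExt.inr _)) = _
  rw [opHom_inr, map_add, map_sum]
  simp only [Algebra.TensorProduct.productMap_apply_tmul, map_one, one_mul, apply_inr y (LL _ _ _ _),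
    LL_single, Finset.mul_sum, mul_smul_comm]
  rfl

theorem act_inv (x y : CR k n →ₐ[k] R) (l : Fin n) : act (invHom e b) y x (xi k l) =
    y (xi k l) - ∑ i, ∑ j, e.repr (b (e i) (e j)) l • (x (xi k i) * y (xi k j)) := by
  change Algebra.TensorProduct.productMap y x (invHom e b (TrivSqZeroExt.inr _)) = _
  rw [invHom_inr, map_sub, map_sum]
  simp only [Algebra.TensorProduct.productMap_apply_tmul, map_one, mul_one, apply_inr y (LL _ _ _ _),
    LL_single, Finset.sum_mul, smul_mul_assoc, mul_comm (x _)]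
  rfl

theorem base_pt (x y : CR k n →ₐ[k] R) :
    LinearMap.BilinMap.baseChange R b (pt e x) (pt e y) =
      ∑ l, (∑ i, ∑ j, e.repr (b (e i) (e j)) l • (x (xi k i) * y (xi k j))) ⊗ₜ e l := by
  have h1 : ∀ i j, (x (xi k i) * y (xi k j)) ⊗ₜ b (e i) (e j) =
      ∑ l, (e.repr (b (e i) (e j)) l • (x (xi k i) * y (xi k j))) ⊗ₜ[k] e l := by
    intro i j
    conv_lhs => rw [← e.sum_repr (b (e i) (e j))]
    rw [tmul_sum]
    exact Finset.sum_congr rfl fun l _ => by rw [tmul_smul, smul_tmul']
  simp only [pt, map_sum, LinearMap.sum_apply, LinearMap.BilinMap.baseChange_tmul, h1, sum_tmul]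
  rw [Finset.sum_comm]
  refine Eq.trans (Finset.sum_congr rfl fun i _ => Finset.sum_comm) ?_
  rw [Finset.sum_comm]

theorem pt_op (x y : CR k n →ₐ[k] R) : pt e (act (opHom e b) x y) =
    pt e y + LinearMap.BilinMap.baseChange R b (pt e x) (pt e y) := by
  rw [base_pt]
  simp only [pt, act_op, add_tmul, Finset.sum_add_distrib]

theorem pt_inv (x y : CR k n →ₐ[k] R) : pt e (act (invHom e b) y x) =
    pt e y - LinearMap.BilinMap.baseChange R b (pt e x) (pt e y) := by
  rw [base_pt]
  simp only [pt, act_inv, sub_tmul, Finset.sum_sub_distrib]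

theorem null {W : Type*} [AddCommGroup W] [Module R W]
    (Φ : (R ⊗[k] q) →ₗ[R] (R ⊗[k] q) →ₗ[R] W) (x : CR k n →ₐ[k] R) : Φ (pt e x) (pt e x) = 0 := by
  simp only [pt_eq, map_sum, LinearMap.sum_apply, map_smul, LinearMap.smul_apply, Finset.smul_sum, smul_smul]
  refine Finset.sum_eq_zero fun i _ => Finset.sum_eq_zero fun j _ => ?_
  rw [← map_mul, xi, xi, TrivSqZeroExt.inr_mul_inr, map_zero, zero_smul]

/-- The Leibniz identity after base change. -/
theorem leib (hb : ∀ X Y Z, b X (b Y Z) = b (b X Y) Z + b Y (b X Z)) (X Y Z : R ⊗[k] q) :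
    LinearMap.BilinMap.baseChange R b X (LinearMap.BilinMap.baseChange R b Y Z) =
      LinearMap.BilinMap.baseChange R b (LinearMap.BilinMap.baseChange R b X Y) Z +
      LinearMap.BilinMap.baseChange R b Y (LinearMap.BilinMap.baseChange R b X Z) := by
  induction X using TensorProduct.induction_on with
  | zero => simp
  | add X X' h h' => simp only [map_add, LinearMap.add_apply, h, h']; abel
  | tmul r X =>
    induction Y using TensorProduct.induction_on with
    | zero => simp
    | add Y Y' h h' => simp only [map_add, LinearMap.add_apply, h, h']; abel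
    | tmul s Y =>
      induction Z using TensorProduct.induction_on with
      | zero => simp
      | add Z Z' h h' => simp only [map_add, h, h']; abel
      | tmul t Z =>
        simp only [LinearMap.BilinMap.baseChange_tmul, hb X Y Z, tmul_add]
        congr 2 <;> ring

theorem BB (x : CR k n →ₐ[k] R) (Y : R ⊗[k] q) : LinearMap.BilinMap.baseChange R b (pt e x)
    (LinearMap.BilinMap.baseChange R b (pt e x) Y) = 0 := by
  have := null e (W := R ⊗[k] q) (LinearMap.mk₂ R (fun U V => LinearMap.BilinMap.baseChange R b U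
    (LinearMap.BilinMap.baseChange R b V Y)) (fun _ _ _ => by simp) (fun _ _ _ => by simp)
    (fun _ _ _ => by simp) (fun _ _ _ => by simp)) x
  exact this

theorem BB' (x : CR k n →ₐ[k] R) (Y Z : R ⊗[k] q) :
    LinearMap.BilinMap.baseChange R b (LinearMap.BilinMap.baseChange R b (pt e x) Y)
    (LinearMap.BilinMap.baseChange R b (pt e x) Z) = 0 := by
  have := null e (W := R ⊗[k] q) (LinearMap.mk₂ R (fun U V => LinearMap.BilinMap.baseChange R b
    (LinearMap.BilinMap.baseChange R b U Y)
    (LinearMap.BilinMap.baseChange R b V Z)) (fun _ _ _ => by simp) (fun _ _ _ => by simp)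
    (fun _ _ _ => by simp) (fun _ _ _ => by simp)) x
  exact this

/-- The unit. -/
noncomputable def unitHom (k : Type u) [Field k] (n : ℕ) : CR k n →ₐ[k] k :=
  TrivSqZeroExt.fstHom k k (Fin n → k)

theorem unit_xi (i : Fin n) : unitHom k n (xi k i) = 0 := rfl

theorem pt_unit : pt (R := R) e ((Algebra.ofId k R).comp (unitHom k n)) = 0 := by
  simp only [pt, AlgHom.comp_apply, unit_xi, map_zero, zero_tmul, Finset.sum_const_zero]

/-- The rack of the Leibniz algebra `b`. -/
noncomputable def rack (hb : ∀ X Y Z, b X (b Y Z) = b (b X Y) Z + b Y (b X Z)) :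
    AffineRack k (CR k n) where
  op := opHom e b
  inv := invHom e b
  unit := unitHom k n
  inv_op R _ _ x y := by
    apply pt_inj e
    rw [pt_inv, pt_op, map_add, BB]; abel
  op_inv R _ _ x y := by
    apply pt_inj e
    rw [pt_op, pt_inv, map_sub, BB]; abel
  op_op R _ _ x y z := by
    apply pt_inj e
    simp only [pt_op, map_add, LinearMap.add_apply, BB', leib b hb (pt e x) (pt e y) (pt e z)]
    abel
  inv_inv R _ _ x y z := by
    apply pt_inj e
    simp only [pt_inv, map_sub, LinearMap.sub_apply, BB', leib b hb (pt e z) (pt e y) (pt e x)]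
    abel
  unit_op R _ _ x := by
    apply pt_inj e
    rw [pt_op, pt_unit, map_zero, LinearMap.zero_apply, add_zero]
  op_unit R _ _ x := by
    apply pt_inj e
    rw [pt_op, pt_unit, map_zero, add_zero]

/-- The derivation of an element of `q`. -/
noncomputable def dd (X : q) : CR k n →ₗ[k] k where
  toFun a := ∑ l, e.repr X l * a.snd l
  map_add' a b := by simp [mul_add, Finset.sum_add_distrib]
  map_smul' c a := by simp [Finset.mul_sum, mul_left_comm]

theorem dd_xi (X : q) (i : Fin n) : dd e X (xi k i) = e.repr X i := by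
  change ∑ l, e.repr X l * (Pi.single i 1 : Fin n → k) l = _
  simp [Pi.single_apply]

theorem lin_ext {D E : CR k n →ₗ[k] k} (h1 : D 1 = E 1) (h : ∀ i, D (xi k i) = E (xi k i)) :
    D = E := by
  apply LinearMap.ext
  intro a
  have ha : a = a.fst • (1 : CR k n) + ∑ l, a.snd l • xi k l := by
    rw [← inr_eq]
    refine TrivSqZeroExt.ext ?_ ?_ <;> simp
  rw [ha, map_add, map_add, map_smul, map_smul, h1, map_sum, map_sum]
  simp only [map_smul, h]

include e in
theorem isAlgebraic (hb : ∀ X Y Z, b X (b Y Z) = b (b X Y) Z + b Y (b X Z)) : IsAlgebraic b := by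
  have hdd : ∀ X, (rack e b hb).IsDer (dd e X) := by
    intro X f g
    change ∑ l, e.repr X l * (f * g).snd l = (∑ l, e.repr X l * f.snd l) * g.fst
      + f.fst * ∑ l, e.repr X l * g.snd l
    rw [Finset.sum_mul, Finset.mul_sum, ← Finset.sum_add_distrib]
    refine Finset.sum_congr rfl fun l _ => ?_
    rw [TrivSqZeroExt.snd_mul]
    simp
    ring
  let φ : q →ₗ[k] CR k n →ₗ[k] k :=
    { toFun := fun X => dd e X
      map_add' := fun X Y => lin_ext (by
        change dd e (X + Y) 1 = dd e X 1 + dd e Y 1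
        simp [dd]) fun i => by
        change dd e (X + Y) (xi k i) = dd e X (xi k i) + dd e Y (xi k i)
        simp [dd_xi]
      map_smul' := fun c X => lin_ext (by
        change dd e (c • X) 1 = c • dd e X 1
        simp [dd]) fun i => by
        change dd e (c • X) (xi k i) = c • dd e X (xi k i)
        simp [dd_xi] }
  refine ⟨CR k n, inferInstance, inferInstance, rack e b hb, φ, ?_, ?_, fun D => ⟨fun hD => ?_, ?_⟩,
    fun X Y => ?_⟩
  · haveI : Module.Finite k (CR k n) := inferInstanceAs (Module.Finite k (k × (Fin n → k)))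
    infer_instance
  · intro X Y hXY
    have hXY' : dd e X = dd e Y := hXY
    apply e.repr.injective
    ext i
    rw [← dd_xi, ← dd_xi, hXY']
  · refine ⟨∑ l, D (xi k l) • e l, ?_⟩
    refine lin_ext ((der_one (hdd _)).trans (der_one hD).symm) fun i => ?_
    change dd e (∑ l, D (xi k l) • e l) (xi k i) = D (xi k i)
    rw [dd_xi, Module.Basis.repr_sum_self]
  · rintro ⟨X, rfl⟩
    exact hdd X
  · refine lin_ext ?_ fun i => ?_
    · change dd e (b X Y) 1 = _
      rw [der_one (hdd _)]
      change 0 = LinearMap.mul' k k (TensorProduct.map (dd e X) (dd e Y) (opHom e b 1))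
      rw [map_one, Algebra.TensorProduct.one_def, TensorProduct.map_tmul, LinearMap.mul'_apply,
        der_one (hdd X), zero_mul]
    · change dd e (b X Y) (xi k i) =
        LinearMap.mul' k k (TensorProduct.map (dd e X) (dd e Y) (opHom e b (TrivSqZeroExt.inr _)))
      rw [opHom_inr, map_add, map_add, TensorProduct.map_tmul, LinearMap.mul'_apply,
        der_one (hdd X), zero_mul, zero_add, map_sum, map_sum, dd_xi]
      simp only [TensorProduct.map_tmul, LinearMap.mul'_apply, dd_xi]
      have h2 : ∀ l, dd e Y (TrivSqZeroExt.inr (LL e b l (Pi.single i 1))) =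
          ∑ j, e.repr Y j * e.repr (b (e l) (e j)) i := by
        intro l
        change ∑ j, e.repr Y j * LL e b l (Pi.single i 1) j = _
        simp only [LL_single]
      simp only [h2]
      conv_lhs => rw [← e.sum_repr X, ← e.sum_repr Y]
      simp only [map_sum, map_smul, LinearMap.sum_apply, LinearMap.smul_apply, Finset.smul_sum,
        Finsupp.coe_finset_sum, Finset.sum_apply, Finsupp.coe_smul, Pi.smul_apply, smul_eq_mul,
        Finset.mul_sum]
      rw [Finset.sum_comm]
      exact Finset.sum_congr rfl fun l _ => Finset.sum_congr rfl fun j _ => by ring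

end construction

/-- The main result. -/
theorem result : ∀ (k : Type u) [Field k] (q : Type v) [AddCommGroup q] [Module k q]
    (b : q →ₗ[k] q →ₗ[k] q), (∀ X Y Z, b X (b Y Z) = b (b X Y) Z + b Y (b X Z)) →
    (IsAlgebraic b ↔ FiniteDimensional k q) := by
  intro k _ q _ _ b hb
  constructor
  · rintro ⟨A, _, _, Q, φ, hA, h0, h1, -⟩
    exact fd_der Q φ h0 fun X => (h1 _).2 ⟨X, rfl⟩
  · intro _
    exact isAlgebraic (Module.finBasis k q) b hb

end Pool.Agent.Results.MP_133c3f_al.AllAlgebraic
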